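import Pool.Agent.N393.C13.All
import Pool.Agent.N410.DC.Gen
import Pool.Agent.R140.PK.Main8

/-!
# Chains of contractible pieces, and conditions which are inherited by contractions of connected sets
-/

set_option autoImplicit false
set_option linter.unusedSectionVars false
set_option synthInstance.maxHeartbeats 400000
set_option synthInstance.maxSize 2048

namespace Pool.Agent.T2h38.C13

open Finset Relation Pool.Agent.TH362.TF Pool.Agent.TH362.TF.Four Pool.Agent.R890.FF
  Pool.Agent.TH676.Z Pool.Agent.R140.PK Pool.Agent.N410.DC Pool.Agent.N393.C13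

open Pool.Agent.R926.SC (quotC st_map st_of crs_comp flA_of_nz foldM FlA cons_of)

variable {V E : Type} [Fintype V] [DecidableEq V] [Fintype E] [DecidableEq E]

/-- `r` is the contraction of the set of edges `F` -/
def CQ (s t : E → V) (F : Finset E) (r : V → V) : Prop :=
  (∀ e ∈ F, r (s e) = r (t e)) ∧
  ∀ Y : Finset V, Disjoint (crs s t Y) F → ∀ x y, r x = r y → (x ∈ Y ↔ y ∈ Y)

/-- a step along an edge of `F` -/
def Sf (s t : E → V) (F : Finset E) (u w : V) : Prop := ∃ e ∈ F, Ends s t u w e

theorem CQ.rtg {s t : E → V} {F : Finset E} {r : V → V} (h : CQ s t F r) {x y : V}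
    (hxy : r x = r y) : ReflTransGen (Sf s t F) x y := by
  classical
  have h1 := h.2 (univ.filter (fun v => ReflTransGen (Sf s t F) x v)) ?_ x y hxy
  · exact (mem_filter.1 (h1.1 (mem_filter.2 ⟨mem_univ _, ReflTransGen.refl⟩))).2
  · rw [disjoint_left]
    intro e he heF
    rw [Pool.Agent.R926.SC.mem_crs] at he
    apply he
    rw [mem_filter, mem_filter]
    exact ⟨fun h => ⟨mem_univ _, h.2.tail ⟨e, heF, Or.inl ⟨rfl, rfl⟩⟩⟩,
      fun h => ⟨mem_univ _, h.2.tail ⟨e, heF, Or.inr ⟨rfl, rfl⟩⟩⟩⟩

theorem CQ.of_rtg {s t : E → V} {F : Finset E} {r : V → V} (h : CQ s t F r) {x y : V}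
    (hxy : ReflTransGen (Sf s t F) x y) : r x = r y := by
  induction hxy with
  | refl => rfl
  | tail _ h2 ih =>
    obtain ⟨e, he, h3⟩ := h2
    rw [ih]
    rcases h3 with ⟨a, b⟩ | ⟨a, b⟩
    · rw [← a, ← b]; exact h.1 e he
    · rw [← a, ← b]; exact (h.1 e he).symm

theorem exists_CQ (s t : E → V) (F : Finset E) : ∃ r : V → V, CQ s t F r ∧ ∀ x, r (r x) = r x := by
  classical
  obtain ⟨r, q1, -, q3, -⟩ := quotC s t F
  have hi : ∀ x, ∃ y, r y = r x := fun x => ⟨x, rfl⟩
  rcases isEmpty_or_nonempty V with hV | hV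
  · exact ⟨r, ⟨q1, q3⟩, fun x => hV.elim x⟩
  have h1 : ∀ x, r (Function.invFun r (r x)) = r x := fun x => Function.invFun_eq ⟨x, rfl⟩
  refine ⟨fun x => Function.invFun r (r x), ⟨fun e he => ?_, fun Y hY x y hxy => ?_⟩, fun x => ?_⟩
  · simp only [q1 e he]
  · refine q3 Y hY x y ?_
    rw [← h1 x, ← h1 y]
    exact congrArg r hxy
  · simp only [h1]

/-- a map can be extended injectively -/
theorem exists_ext (f : V → V) (R : V → Prop) [DecidablePred R] : ∃ ρ : V → V,
    (∀ x, R x → ρ x = f x) ∧ ∀ x y, ¬ R x → ρ x = ρ y → x = y := by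
  classical
  set A : Finset V := univ.filter (fun x => ¬ R x)
  set B : Finset V := univ \ (univ.filter (fun x => R x)).image f
  have hc : A.card ≤ B.card := by
    have h1 : ((univ.filter (fun x => R x)).image f).card ≤ (univ.filter (fun x : V => R x)).card :=
      card_image_le
    have h2 := card_sdiff_add_card_eq_card
      (subset_univ ((univ.filter (fun x => R x)).image f))
    have h3 := Finset.card_filter_add_card_filter_not (s := (univ : Finset V)) (p := fun x => R x)
    have h4 : B.card = (univ \ (univ.filter (fun x => R x)).image f).card := rfl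
    have h5 : A.card = (univ.filter (fun x => ¬ R x)).card := rfl
    omega
  obtain ⟨g⟩ : Nonempty ({x // x ∈ A} ↪ {x // x ∈ B}) :=
    Function.Embedding.nonempty_of_card_le (by simpa using hc)
  refine ⟨fun x => if h : x ∈ A then (g ⟨x, h⟩).1 else f x, fun x hx => ?_, fun x y hx hxy => ?_⟩
  · have h1 : x ∉ A := fun h => (mem_filter.1 h).2 hx
    simp only [h1, dif_neg, not_false_iff]
  · have h1 : x ∈ A := mem_filter.2 ⟨mem_univ _, hx⟩
    simp only [h1, dif_pos] at hxy
    by_cases h2 : y ∈ A
    · simp only [h2, dif_pos] at hxy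
      have := g.injective (Subtype.ext hxy)
      exact congrArg Subtype.val this
    · simp only [h2, dif_neg, not_false_iff] at hxy
      exfalso
      have h3 := (g ⟨x, h1⟩).2
      rw [hxy] at h3
      refine (mem_sdiff.1 h3).2 (mem_image_of_mem f (mem_filter.2 ⟨mem_univ _, ?_⟩))
      by_contra h4
      exact h2 (mem_filter.2 ⟨mem_univ _, h4⟩)

/-- a condition which is inherited by contractions of connected sets, and implies that there is a
flow or a Petersen quotient -/
structure InhC (K : (E → V) → (E → V) → Prop) : Prop where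
  map : ∀ {s t : E → V} (ρ : V → V), FC s t univ ρ → K s t →
    K (fun e => ρ (s e)) (fun e => ρ (t e))
  flow : ∀ {s t : E → V}, K s t → N1 s t univ → NZ s t univ ∨ PQ s t univ

/-- the contraction of `F` satisfies the condition -/
def Kc (K : (E → V) → (E → V) → Prop) (s t : E → V) (F : Finset E) : Prop :=
  ∀ r, CQ s t F r → K (fun e => r (s e)) (fun e => r (t e))

/-- contractions of connected sets and the contraction of `F` -/
theorem fc_comp {s t : E → V} {F : Finset E} {π r : V → V} (hπ : FC s t univ π)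
    (hr : CQ (fun e => π (s e)) (fun e => π (t e)) F r) : FC s t univ (fun v => r (π v)) := by
  intro x y hxy
  have h1 := hr.rtg hxy
  have key : ∀ q, ReflTransGen (Sf (fun e => π (s e)) (fun e => π (t e)) F) (π x) q →
      ∀ y', π y' = q → ReflTransGen (St s t univ (fun u => r (π u) = r (π x))) x y' := by
    intro q hq
    induction hq with
    | refl =>
      intro y' hy'
      refine St.mono ?_ (hπ x y' hy'.symm)
      intro u hu
      rw [hu]
    | tail hpq hstep ih =>
      rename_i p q'
      intro y' hy'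
      obtain ⟨e', he', hE⟩ := hstep
      have hpr : r (π x) = r p := hr.of_rtg hpq
      have hpq' : r p = r q' := hr.of_rtg (ReflTransGen.single ⟨e', he', hE⟩)
      have : ∃ u w, Ends s t u w e' ∧ π u = p ∧ π w = q' := by
        rcases hE with ⟨a1, a2⟩ | ⟨a1, a2⟩
        · exact ⟨s e', t e', Or.inl ⟨rfl, rfl⟩, a1, a2⟩
        · exact ⟨t e', s e', Or.inr ⟨rfl, rfl⟩, a2, a1⟩
      obtain ⟨u, w, hE', hu, hw⟩ := this
      refine ((ih u hu).tail ⟨⟨e', mem_univ _, hE'⟩, ?_, ?_⟩).trans ?_
      · show r (π u) = r (π x)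
        rw [hu, hpr]
      · show r (π w) = r (π x)
        rw [hw, hpr, hpq']
      · refine St.mono ?_ (hπ w y' (hw.trans hy'.symm))
        intro v hv
        show r (π v) = r (π x)
        rw [hv, hw, hpr, hpq']
  exact key (π y) h1 y rfl

theorem Kc.map {K : (E → V) → (E → V) → Prop} (hK : InhC K) {s t : E → V} {F : Finset E}
    (h : Kc K s t F) {π : V → V} (hπ : FC s t univ π) :
    Kc K (fun e => π (s e)) (fun e => π (t e)) F := by
  classical
  intro r' hr'
  obtain ⟨r, hr, hrr⟩ := exists_CQ s t F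
  obtain ⟨ρ, h1, h2⟩ := exists_ext (fun x => r' (π x)) (fun x => r x = x)
  have h3 : ∀ x, r' (π (r x)) = r' (π x) := by
    intro x
    have h4 : ReflTransGen (Sf s t F) (r x) x := hr.rtg (hrr x)
    have h5 : ReflTransGen (Sf (fun e => π (s e)) (fun e => π (t e)) F) (π (r x)) (π x) := by
      generalize r x = z at h4
      induction h4 with
      | refl => exact ReflTransGen.refl
      | tail _ h6 ih =>
        refine ih.tail ?_
        obtain ⟨e, he, hE⟩ := h6
        refine ⟨e, he, ?_⟩
        rcases hE with ⟨a, b⟩ | ⟨a, b⟩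
        · exact Or.inl ⟨congrArg π a, congrArg π b⟩
        · exact Or.inr ⟨congrArg π a, congrArg π b⟩
    exact hr'.of_rtg h5
  have h4 : ∀ x, ρ (r x) = r' (π x) := fun x => (h1 _ (hrr x)).trans (h3 x)
  have hFC : FC (fun e => r (s e)) (fun e => r (t e)) univ ρ := by
    intro x y hxy
    by_cases hx : r x = x
    · by_cases hy : r y = y
      · have h5 : r' (π x) = r' (π y) := by
          rw [← h4 x, ← h4 y, hx, hy]; exact hxy
        have h6 := fc_comp hπ hr' x y h5
        have h7 : ∀ z, ReflTransGen (St s t univ (fun u => r' (π u) = r' (π x))) x z →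
            ReflTransGen (St (fun e => r (s e)) (fun e => r (t e)) univ
              (fun u => ρ u = ρ x)) (r x) (r z) := by
          intro z hz
          induction hz with
          | refl => exact ReflTransGen.refl
          | tail _ h8 ih =>
            obtain ⟨⟨e, he, hE⟩, hp, hq⟩ := h8
            refine ih.tail ⟨⟨e, he, ?_⟩, ?_, ?_⟩
            · rcases hE with ⟨a, b⟩ | ⟨a, b⟩
              · exact Or.inl ⟨congrArg r a, congrArg r b⟩
              · exact Or.inr ⟨congrArg r a, congrArg r b⟩
            · show ρ (r _) = ρ x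
              rw [h4, hp, ← h4 x, hx]
            · show ρ (r _) = ρ x
              rw [h4, hq, ← h4 x, hx]
        have h9 := h7 y h6
        rw [hx, hy] at h9
        exact h9
      · have := h2 y x hy hxy.symm
        subst this
        exact ReflTransGen.refl
    · have := h2 x y hx hxy
      subst this
      exact ReflTransGen.refl
  have h5 := hK.map ρ hFC (h r hr)
  have e1 : (fun e => ρ (r (s e))) = fun e => r' (π (s e)) := funext fun e => h4 _
  have e2 : (fun e => ρ (r (t e))) = fun e => r' (π (t e)) := funext fun e => h4 _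
  rw [e1, e2] at h5
  exact h5

/-- the class of the graphs with a chain of contractible pieces -/
def CCl (K : (E → V) → (E → V) → Prop) (s t : E → V) : Prop :=
  ∃ (m : ℕ) (C : Fin m → Finset E), Chain s t C ∧ Kc K s t (univ.biUnion C)

variable {K : (E → V) → (E → V) → Prop}

theorem CCl.map (hK : InhC K) {s t : E → V} (h : CCl K s t) {π : V → V} (hπ : FC s t univ π) :
    CCl K (fun e => π (s e)) (fun e => π (t e)) := by
  obtain ⟨m, C, h1, h2⟩ := h
  exact ⟨m, C, fun i => st_map s t π _ _ (h1 i), h2.map hK hπ⟩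

/-- **graphs in the class have a nowhere-zero 4-flow or a Petersen quotient** -/
theorem CCl.flow (hK : InhC K) {s t : E → V} (h : CCl K s t) (h1 : N1 s t univ) :
    NZ s t univ ∨ PQ s t univ := by
  obtain ⟨m, C, hC, hO⟩ := h
  set F := univ.biUnion C with hF
  obtain ⟨r, q1, -, q3, q4⟩ := quotC s t F
  have hN : N1 (fun e => r (s e)) (fun e => r (t e)) univ :=
    quot_n1 (S' := univ) (Subset.refl _) (fun e h h' => absurd h h') h1
  rcases hK.flow (hO r ⟨q1, q3⟩) hN with h3 | h3
  · left
    have h4 : FlA s t F := flA_of_nz s t F r q4 h3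
    obtain ⟨x, y, b1, b2, b3⟩ := foldM Pool.Agent.Y335.FL.circEx s t m C hC h4
    refine ⟨fun e => (x e, y e), fun e _ => ?_, fun v => cons_of s t x y v (b1 v) (b2 v)⟩
    intro h7
    rcases b3 e (notMem_empty e) with h8 | h8
    · exact h8 (congrArg Prod.fst h7)
    · exact h8 (congrArg Prod.snd h7)
  · right
    exact quot_pq (s := s) (t := t) (f := r) (S := univ) (S' := univ) (Subset.refl _)
      (fun e h h' => absurd h h') h3

/-- **six even subgraphs for the graphs in the class** -/
theorem CCl.cov (hK : InhC K) {s t : E → V} (h : CCl K s t) (hn : N1 s t univ) : Cov s t := by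
  classical
  by_contra hcon
  obtain ⟨π, hπ, hM⟩ := exists_MinP Cov s t hn hcon
  rcases (h.map hK hπ).flow hK hM.n1 with h1 | h1
  · exact hM.np (cov_of_nz h1)
  · obtain ⟨κ, c, hc⟩ := hM.pet h1 (fun A1 A2 a1 a2 b1 b2 b3 b4 b5 b6 b7 =>
      cov_sum A1 A2 a1 a2 b1 b2 b3 b4 b5 b6 b7)
    obtain ⟨h2, h3⟩ := hc.conn
    exact hM.np (cov_pet hc (hM.mn _ _ (mem_image_of_mem _ (mem_univ _)) h2 h3))

/-! ## no circuits with more than thirteen vertices, or no induced paths with eight vertices -/

/-- no induced path with eight vertices -/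
def NoP8 (s t : E → V) : Prop :=
  ¬ ∃ p : Fin 8 → V, Function.Injective p ∧ ∀ i j : Fin 8, i < j →
    ((∃ e, (s e = p i ∧ t e = p j) ∨ (s e = p j ∧ t e = p i)) ↔ i.val + 1 = j.val)

theorem NoP8.map {s t : E → V} {π : V → V} (hπ : FC s t univ π) (hp : NoP8 s t) :
    NoP8 (fun e => π (s e)) (fun e => π (t e)) := by
  rintro ⟨q, hq, hq'⟩
  obtain ⟨p, hp1, hp2⟩ := lift_path hπ (by omega) q hq (fun i j hij => by
    rw [← hq' i j hij]
    constructor
    · rintro ⟨_, e, _, he⟩
      exact ⟨e, he⟩
    · rintro ⟨e, he⟩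
      exact ⟨fun h => absurd (hq h) (ne_of_gt hij), e, mem_univ e, he⟩)
  refine hp ⟨p, hp1, fun i j hij => ?_⟩
  rw [← hp2 i j hij]
  constructor
  · rintro ⟨e, he⟩
    exact ⟨fun h => absurd (hp1 h) (ne_of_gt hij), e, mem_univ e, he⟩
  · rintro ⟨_, e, _, he⟩
    exact ⟨e, he⟩

/-- the condition -/
def K13 (s t : E → V) : Prop := NoLong s t ∨ NoP8 s t

theorem inh13 : InhC (V := V) (E := E) K13 where
  map _ hρ h := h.imp (fun h => h.map leaves hρ) (fun h => h.map hρ)
  flow h hn := h.elim (fun h => flow13 leaves _ _ hn h) (fun h => main8 _ _ hn h)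

end Pool.Agent.T2h38.C13
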